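import Pool.Agent.helper4.NF.SpecA
import Pool.Agent.helper1.ZD.BLG

/-!
# Project nf (MP_4467b5_nt), module IID: Fubini with a Gaussian
-/

set_option autoImplicit false

open Complex MeasureTheory

namespace Pool.Agent.NF

open Pool.Agent.helper84.DM Pool.Agent.helper78.ED Pool.Agent.DH Pool.Agent.ZD

theorem IID_ex_cont : Continuous ex := by
  unfold ex
  fun_prop

theorem IID_ex_norm (x : ℝ) : ‖ex x‖ = 1 := by
  unfold ex
  exact Complex.norm_exp_ofReal_mul_I x

theorem IID_ex_add (x y : ℝ) : ex (x + y) = ex x * ex y := by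
  unfold ex
  rw [← Complex.exp_add]
  congr 1
  push_cast
  ring

theorem IID_ex_conj (x : ℝ) : (starRingEnd ℂ) (ex x) = ex (-x) := by
  unfold ex
  rw [← Complex.exp_conj, map_mul, Complex.conj_I, Complex.conj_ofReal]
  congr 1
  push_cast
  ring

/-- Fubini. -/
theorem IID_core (D G H : ℝ → ℂ) (hDc : Continuous D) (hD : Integrable D) (hGc : Continuous G)
    (hG : Integrable G) (hHc : Continuous H) (hH : Integrable H) (t₁ t₂ : ℝ) :
    ∫ τ : ℝ, D τ * ((∫ x : ℝ, G x * ex (-((τ - t₁) * x))) * ∫ x : ℝ, H x * ex ((τ - t₂) * x)) =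
    ∫ x₁ : ℝ, ∫ x₂ : ℝ, G x₁ * H x₂ * (∫ τ : ℝ, D τ * ex (-(τ * (x₁ - x₂)))) *
      ex (t₁ * x₁ - t₂ * x₂) := by
  have hex := IID_ex_cont
  obtain ⟨F, hF⟩ : ∃ F : ℝ → ℝ × ℝ → ℂ, ∀ τ z, F τ z =
    D τ * ((G z.1 * ex (-((τ - t₁) * z.1))) * (H z.2 * ex ((τ - t₂) * z.2))) :=
    ⟨_, fun _ _ => rfl⟩
  have hFc : Continuous (Function.uncurry F) := by
    have h : Function.uncurry F = fun p : ℝ × (ℝ × ℝ) => D p.1 *
      ((G p.2.1 * ex (-((p.1 - t₁) * p.2.1))) * (H p.2.2 * ex ((p.1 - t₂) * p.2.2))) := by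
      funext p
      exact hF p.1 p.2
    rw [h]
    fun_prop
  have hFi : Integrable (Function.uncurry F) (volume.prod volume) := by
    have h1 : Integrable (fun p : ℝ × (ℝ × ℝ) => D p.1 * (G p.2.1 * H p.2.2))
        (volume.prod volume) := hD.mul_prod (hG.mul_prod hH)
    refine h1.mono hFc.aestronglyMeasurable (Filter.Eventually.of_forall fun p => ?_)
    have h2 : Function.uncurry F p = D p.1 *
      ((G p.2.1 * ex (-((p.1 - t₁) * p.2.1))) * (H p.2.2 * ex ((p.1 - t₂) * p.2.2))) :=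
      hF p.1 p.2
    rw [h2]
    simp only [norm_mul, IID_ex_norm, mul_one]
    exact le_rfl
  have h1 : ∀ τ : ℝ, D τ * ((∫ x : ℝ, G x * ex (-((τ - t₁) * x))) *
      ∫ x : ℝ, H x * ex ((τ - t₂) * x)) = ∫ z : ℝ × ℝ, F τ z := by
    intro τ
    rw [← integral_prod_mul (fun x : ℝ => G x * ex (-((τ - t₁) * x)))
      (fun x : ℝ => H x * ex ((τ - t₂) * x)), ← integral_const_mul]
    refine integral_congr_ae (Filter.Eventually.of_forall fun z => ?_)
    exact (hF τ z).symm
  simp only [h1]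
  rw [integral_integral_swap hFi]
  have h2 : Integrable (fun z : ℝ × ℝ => ∫ τ : ℝ, F τ z) (volume.prod volume) :=
    hFi.integral_prod_right
  have h3 : ∫ z : ℝ × ℝ, ∫ τ : ℝ, F τ z = ∫ x₁ : ℝ, ∫ x₂ : ℝ, ∫ τ : ℝ, F τ (x₁, x₂) :=
    integral_prod _ h2
  rw [h3]
  refine integral_congr_ae (Filter.Eventually.of_forall fun x₁ => ?_)
  refine integral_congr_ae (Filter.Eventually.of_forall fun x₂ => ?_)
  show ∫ τ : ℝ, F τ (x₁, x₂) = G x₁ * H x₂ * (∫ τ : ℝ, D τ * ex (-(τ * (x₁ - x₂)))) *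
      ex (t₁ * x₁ - t₂ * x₂)
  rw [← integral_const_mul, ← integral_mul_const]
  refine integral_congr_ae (Filter.Eventually.of_forall fun τ => ?_)
  show F τ (x₁, x₂) = G x₁ * H x₂ * (D τ * ex (-(τ * (x₁ - x₂)))) * ex (t₁ * x₁ - t₂ * x₂)
  rw [hF]
  have h4 : ex (-((τ - t₁) * x₁)) * ex ((τ - t₂) * x₂) =
      ex (-(τ * (x₁ - x₂))) * ex (t₁ * x₁ - t₂ * x₂) := by
    rw [← IID_ex_add, ← IID_ex_add]
    congr 1
    ring
  linear_combination (D τ * G x₁ * H x₂) * h4

/-- **IID**. -/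
theorem IID (hEXA : EXA_stmt) (hEXB : EXB_stmt) : IID_stmt := by
  intro g hg T X M A b hT h0 t₁ t₂
  obtain ⟨-, -, -, -, -, hDG, -⟩ := hEXA
  obtain ⟨-, -, -, -, -, hGW⟩ := hEXB
  obtain ⟨hGc, hGs⟩ := hGW g hg X M
  have hex := IID_ex_cont
  have hDGe : ∀ u, DG A b u = ∑ n ∈ A, b n * ex (-(u * Real.log n)) := fun u => hDG A b u h0
  have hDGc : Continuous (DG A b) := by
    have h : DG A b = fun u => ∑ n ∈ A, b n * ex (-(u * Real.log n)) := funext hDGe
    rw [h]
    fun_prop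
  -- the function of `τ`
  obtain ⟨D, hD⟩ : ∃ D : ℝ → ℂ, ∀ τ, D τ = ((‖DG A b τ‖ ^ 2 * Real.exp (-(τ / T) ^ 2) : ℝ) : ℂ) :=
    ⟨_, fun _ => rfl⟩
  have hDc : Continuous D := by
    have h : D = fun τ => ((‖DG A b τ‖ ^ 2 * Real.exp (-(τ / T) ^ 2) : ℝ) : ℂ) := funext hD
    rw [h]
    fun_prop
  have hDv : ∀ τ v : ℝ, D τ * ex (-(τ * v)) = ∑ n ∈ A, ∑ n' ∈ A, b n * (starRingEnd ℂ) (b n') *
      (Complex.exp (((τ * (-(v + Real.log n - Real.log n')) : ℝ) : ℂ) * I) *
        ((Real.exp (-(τ / T) ^ 2) : ℝ) : ℂ)) := by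
    intro τ v
    rw [hD, Complex.ofReal_mul, Complex.ofReal_pow, ← Complex.mul_conj', hDGe, map_sum,
      Finset.sum_mul_sum, Finset.sum_mul, Finset.sum_mul]
    refine Finset.sum_congr rfl fun n _ => ?_
    rw [Finset.sum_mul, Finset.sum_mul]
    refine Finset.sum_congr rfl fun n' _ => ?_
    rw [map_mul, IID_ex_conj]
    have h1 : Complex.exp (((τ * (-(v + Real.log n - Real.log n')) : ℝ) : ℂ) * I) =
        ex (-(τ * Real.log n)) * ex (- -(τ * Real.log n')) * ex (-(τ * v)) := by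
      rw [← IID_ex_add, ← IID_ex_add]
      show ex (τ * (-(v + Real.log n - Real.log n'))) = _
      congr 1
      ring
    rw [h1]
    ring
  have hDvi : ∀ v : ℝ, Integrable fun τ : ℝ => D τ * ex (-(τ * v)) := by
    intro v
    simp only [hDv]
    exact integrable_finsetSum _ fun n _ => integrable_finsetSum _ fun n' _ =>
      (BLG_one T hT _).1.const_mul _
  have hDi : Integrable D := by
    have h := hDvi 0
    have h2 : (fun τ : ℝ => D τ * ex (-(τ * 0))) = D := by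
      funext τ
      have : ex (-(τ * 0)) = 1 := by unfold ex; simp
      rw [this, mul_one]
    rwa [h2] at h
  have hZQ : ∀ v : ℝ, ∫ τ : ℝ, D τ * ex (-(τ * v)) = ZQ T A b v := by
    intro v
    simp only [hDv]
    rw [integral_finsetSum _ fun n _ => integrable_finsetSum _ fun n' _ =>
      (BLG_one T hT _).1.const_mul _]
    unfold ZQ
    rw [Finset.mul_sum]
    refine Finset.sum_congr rfl fun n _ => ?_
    rw [integral_finsetSum _ fun n' _ => (BLG_one T hT _).1.const_mul _, Finset.mul_sum]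
    refine Finset.sum_congr rfl fun n' _ => ?_
    rw [integral_const_mul, (BLG_one T hT _).2]
    have h1 : (T * (-(v + Real.log n - Real.log n'))) ^ 2 =
        (T * (v + Real.log n - Real.log n')) ^ 2 := by ring
    rw [h1]
    ring
  -- the kernel
  have hGcs : HasCompactSupport (GW g X M) := by
    refine HasCompactSupport.intro (isCompact_Icc (a := (-5 : ℝ)) (b := 5)) fun x hx => hGs x ?_
    by_contra hne
    exact hx (abs_le.1 (not_lt.1 hne))
  have hGi : Integrable (GW g X M) := hGc.integrable_of_hasCompactSupport hGcs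
  have hHc : Continuous fun x => (starRingEnd ℂ) (GW g X M x) := Complex.continuous_conj.comp hGc
  have hHi : Integrable fun x => (starRingEnd ℂ) (GW g X M x) := by
    refine hHc.integrable_of_hasCompactSupport ?_
    exact hGcs.comp_left (g := (starRingEnd ℂ)) (map_zero _)
  have hconj : ∀ u : ℝ, (starRingEnd ℂ) (BW g X M u) =
      ∫ x : ℝ, (starRingEnd ℂ) (GW g X M x) * ex (u * x) := by
    intro u
    unfold BW
    rw [← integral_conj]
    refine integral_congr_ae (Filter.Eventually.of_forall fun x => ?_)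
    show (starRingEnd ℂ) (GW g X M x * ex (-(u * x))) = (starRingEnd ℂ) (GW g X M x) * ex (u * x)
    rw [map_mul, IID_ex_conj, neg_neg]
  have hcore := IID_core D (GW g X M) (fun x => (starRingEnd ℂ) (GW g X M x)) hDc hDi hGc hGi hHc hHi
    t₁ t₂
  simp only [hZQ] at hcore
  rw [← hcore]
  unfold IW
  refine integral_congr_ae (Filter.Eventually.of_forall fun τ => ?_)
  show ((‖DG A b τ‖ ^ 2 * Real.exp (-(τ / T) ^ 2) : ℝ) : ℂ) *
    (BW g X M (τ - t₁) * (starRingEnd ℂ) (BW g X M (τ - t₂))) = _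
  rw [← hD, hconj]
  rfl

end Pool.Agent.NF
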